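import Mathlib
import Pool.Agent.R421.Z4.Fin
import Pool.Agent.R421.Z8.Fin
import Pool.Agent.R421.Z12.Fin
import Pool.Agent.W605.RT.PAR4
import Pool.Agent.W261.RT.Iso
import Pool.Agent.Y87.Z8.PAR

/-!
# Exact torsion groups `Z/4`, `Z/8`
-/

set_option autoImplicit false
set_option linter.all false

namespace Pool.Agent.R421.ET

open Finset Filter Topology

open Pool.Agent.W307.RT (Sh HasT Cv Box mem_Box PAR)

open Pool.Agent.R421.HF (CvN)

lemma cnt_box {S : Finset (ℤ × ℤ)} {F : ℤ × ℤ → ℤ × ℤ} (hinj : Set.InjOn F (S : Set (ℤ × ℤ)))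
    {k N T : ℕ} (hk : 1 ≤ k) (hb : ∀ c ∈ S, (F c).1.natAbs ^ k ≤ N ∧ (F c).2.natAbs ^ k ≤ N)
    (hT : N < (T + 1) ^ k) : S.card ≤ (2 * T + 1) ^ 2 := by
  classical
  have h1 : S.image F ⊆ Box T := by
    intro t ht
    obtain ⟨c, hc, rfl⟩ := mem_image.1 ht
    obtain ⟨h2, h3⟩ := hb c hc
    rw [mem_Box]
    have h4 := lt_of_pow_lt_pow_left' k (lt_of_le_of_lt h2 hT)
    have h5 := lt_of_pow_lt_pow_left' k (lt_of_le_of_lt h3 hT)
    omega
  have h2 := card_le_card h1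
  rw [card_image_of_injOn hinj] at h2
  refine h2.trans (le_of_eq ?_)
  unfold Box
  rw [card_product, Int.card_Icc]
  have : ((T : ℤ) + 1 - -(T : ℤ)).toNat = 2 * T + 1 := by omega
  rw [this]
  ring

/-- the families with half the exponent -/
lemma bdA {S : Finset (ℤ × ℤ)} {F : ℤ × ℤ → ℤ × ℤ} (hinj : Set.InjOn F (S : Set (ℤ × ℤ)))
    {k k' C0 C H K : ℕ} (hk : 1 ≤ k) (hkk : 2 * k ≤ k')
    (hb : ∀ c ∈ S, (F c).1.natAbs ^ k' ≤ C0 * H ∧ (F c).2.natAbs ^ k' ≤ C0 * H) (hK : 1 ≤ K)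
    (hH : H < (C + 1) * (K + 1) ^ k) : S.card ≤ 18 * (C0 * (C + 1) + 1) * K := by
  obtain ⟨D, hD⟩ : ∃ D, D = C0 * (C + 1) + 1 := ⟨_, rfl⟩
  have hD1 : 1 ≤ D := by omega
  obtain ⟨T, hT⟩ : ∃ T, T = Nat.sqrt (D * (K + 1)) := ⟨_, rfl⟩
  have h1 : T * T ≤ D * (K + 1) := by rw [hT]; exact Nat.sqrt_le _
  have h2 : D * (K + 1) < (T + 1) * (T + 1) := by rw [hT]; exact Nat.lt_succ_sqrt _
  have hT1 : 1 ≤ T := by
    rw [hT, Nat.le_sqrt]
    nlinarith
  have h3 : C0 * H < (T + 1) ^ (2 * k) := by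
    calc C0 * H ≤ C0 * ((C + 1) * (K + 1) ^ k) := Nat.mul_le_mul_left _ hH.le
      _ = C0 * (C + 1) * (K + 1) ^ k := by ring
      _ < D * (K + 1) ^ k := Nat.mul_lt_mul_of_pos_right (by omega) (by positivity)
      _ ≤ D ^ k * (K + 1) ^ k := Nat.mul_le_mul_right _ (Nat.le_self_pow (by omega) D)
      _ = (D * (K + 1)) ^ k := (mul_pow _ _ _).symm
      _ ≤ ((T + 1) * (T + 1)) ^ k := Nat.pow_le_pow_left h2.le k
      _ = (T + 1) ^ (2 * k) := by rw [pow_mul, pow_two]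
  have h4 := cnt_box hinj (k := 2 * k) (N := C0 * H) (by omega) (fun c hc => by
    obtain ⟨a1, a2⟩ := hb c hc
    have aux : ∀ n : ℕ, n ^ k' ≤ C0 * H → n ^ (2 * k) ≤ C0 * H := by
      intro n hn
      rcases Nat.eq_zero_or_pos n with h | h
      · rw [h, zero_pow (by omega)]
        exact Nat.zero_le _
      · exact (Nat.pow_le_pow_right h hkk).trans hn
    exact ⟨aux _ a1, aux _ a2⟩) h3
  rw [← hD]
  calc S.card ≤ (2 * T + 1) ^ 2 := h4
    _ ≤ (3 * T) ^ 2 := Nat.pow_le_pow_left (by omega) 2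
    _ = 9 * (T * T) := by ring
    _ ≤ 9 * (D * (K + 1)) := Nat.mul_le_mul_left _ h1
    _ ≤ 9 * (D * (2 * K)) := Nat.mul_le_mul_left _ (Nat.mul_le_mul_left _ (by omega))
    _ = _ := by ring

/-- the families with the same exponent -/
lemma bdB {S : Finset (ℤ × ℤ)} {F : ℤ × ℤ → ℤ × ℤ} (hinj : Set.InjOn F (S : Set (ℤ × ℤ)))
    {k C0 C H K : ℕ} (hk : 1 ≤ k)
    (hb : ∀ c ∈ S, (F c).1.natAbs ^ k ≤ C0 * H ∧ (F c).2.natAbs ^ k ≤ C0 * H) (hK : 1 ≤ K)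
    (hH : H < (C + 1) * (K + 1) ^ k) : S.card ≤ 36 * (C0 * (C + 1) + 1) ^ 2 * K ^ 2 := by
  obtain ⟨D, hD⟩ : ∃ D, D = C0 * (C + 1) + 1 := ⟨_, rfl⟩
  have hD1 : 1 ≤ D := by omega
  have h3 : C0 * H < (D * (K + 1) + 1) ^ k := by
    calc C0 * H ≤ C0 * ((C + 1) * (K + 1) ^ k) := Nat.mul_le_mul_left _ hH.le
      _ = C0 * (C + 1) * (K + 1) ^ k := by ring
      _ < D * (K + 1) ^ k := Nat.mul_lt_mul_of_pos_right (by omega) (by positivity)
      _ ≤ D ^ k * (K + 1) ^ k := Nat.mul_le_mul_right _ (Nat.le_self_pow (by omega) D)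
      _ = (D * (K + 1)) ^ k := (mul_pow _ _ _).symm
      _ ≤ _ := Nat.pow_le_pow_left (by omega) k
  have h4 := cnt_box hinj hk hb h3
  rw [← hD]
  have h5 : 1 ≤ D * (K + 1) := Nat.mul_pos hD1 (by omega)
  calc S.card ≤ (2 * (D * (K + 1)) + 1) ^ 2 := h4
    _ ≤ (3 * (D * (K + 1))) ^ 2 := Nat.pow_le_pow_left (by omega) 2
    _ ≤ (3 * (D * (2 * K))) ^ 2 := Nat.pow_le_pow_left (Nat.mul_le_mul_left _
        (Nat.mul_le_mul_left _ (by omega))) 2
    _ = _ := by ring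

/-- sparse families -/
lemma ratio0 {A B : ℕ → ℕ} {k e : ℕ} (hk : 1 ≤ k) {c : ℝ} {C T0 M : ℕ} (hc : 0 < c)
    (hA : ∀ K H : ℕ, T0 ≤ K → C * K ^ k ≤ H → c * (K : ℝ) ^ (e + 1) ≤ (A H : ℝ))
    (hB : ∀ K H : ℕ, 1 ≤ K → H < (C + 1) * (K + 1) ^ k → B H ≤ M * K ^ e) :
    Tendsto (fun H => (B H : ℝ) / (A H : ℝ)) atTop (𝓝 0) := by
  rw [Metric.tendsto_atTop]
  intro ε hε
  obtain ⟨n, hn⟩ := exists_nat_gt ((M : ℝ) / (c * ε))
  obtain ⟨K0, hK0⟩ : ∃ K0, K0 = T0 + 1 + n := ⟨_, rfl⟩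
  refine ⟨(C + 1) * K0 ^ k, fun H hH => ?_⟩
  obtain ⟨K, hK⟩ : ∃ K, K = Nat.findGreatest (fun t => (C + 1) * t ^ k ≤ H) H := ⟨_, rfl⟩
  have hle : ∀ x : ℕ, (C + 1) * x ^ k ≤ H → x ≤ K := by
    intro x hx
    rw [hK]
    refine Nat.le_findGreatest ?_ hx
    calc x ≤ x ^ k := Nat.le_self_pow (by omega) x
      _ ≤ (C + 1) * x ^ k := Nat.le_mul_of_pos_left _ (by omega)
      _ ≤ H := hx
  have hK1 : (C + 1) * K ^ k ≤ H := by
    have h0 : (fun t => (C + 1) * t ^ k ≤ H) K := by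
      rw [hK]
      exact Nat.findGreatest_spec (P := fun t => (C + 1) * t ^ k ≤ H) (Nat.zero_le _)
        (by rw [zero_pow (by omega)]; simp)
    exact h0
  have hK2 : K0 ≤ K := hle K0 hH
  have hK3 : H < (C + 1) * (K + 1) ^ k := by
    by_contra hcon
    rw [not_lt] at hcon
    have := hle (K + 1) hcon
    omega
  have h1 := hA K H (by omega) ((Nat.mul_le_mul_right _ (Nat.le_succ C)).trans hK1)
  have h2 := hB K H (by omega) hK3
  have hKr : (0 : ℝ) < K := by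
    have : 0 < K := by omega
    exact_mod_cast this
  have hApos : (0 : ℝ) < A H := lt_of_lt_of_le (by positivity) h1
  have h2' : (B H : ℝ) ≤ M * (K : ℝ) ^ e := by exact_mod_cast h2
  rw [Real.dist_eq, sub_zero, abs_of_nonneg (by positivity), div_lt_iff₀ hApos]
  have hnK : (n : ℝ) ≤ K := by
    have : n ≤ K := by omega
    exact_mod_cast this
  rw [div_lt_iff₀ (by positivity)] at hn
  have h3 : (M : ℝ) < K * (c * ε) := hn.trans_le (mul_le_mul_of_nonneg_right hnK (by positivity))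
  calc (B H : ℝ) ≤ M * (K : ℝ) ^ e := h2'
    _ < (K * (c * ε)) * (K : ℝ) ^ e := mul_lt_mul_of_pos_right h3 (by positivity)
    _ = ε * (c * (K : ℝ) ^ (e + 1)) := by ring
    _ ≤ ε * A H := mul_le_mul_of_nonneg_left h1 hε.le

open Classical in
/-- torsion group `Z/4` -/
noncomputable def G4 (H : ℕ) : Finset (ℤ × ℤ) :=
  (CvN 4 H).filter (fun c => (∀ P : (Sh c.1 c.2).toAffine.Point, addOrderOf P ≠ 8) ∧
    (∀ P : (Sh c.1 c.2).toAffine.Point, addOrderOf P ≠ 12) ∧ ¬ HasT 4 (Sh c.1 c.2))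

open Classical in
/-- torsion group `Z/8` -/
noncomputable def G8 (H : ℕ) : Finset (ℤ × ℤ) :=
  (CvN 8 H).filter (fun c => ¬ HasT 8 (Sh c.1 c.2))

lemma split4 (H : ℕ) : (CvN 4 H).card ≤ (G4 H).card + ((CvN 8 H).card + ((CvN 12 H).card +
    (Cv 4 H).card)) := by
  classical
  have hsub : CvN 4 H ⊆ G4 H ∪ (CvN 8 H ∪ (CvN 12 H ∪ Cv 4 H)) := by
    intro c hc
    have hc' := hc
    unfold CvN at hc'
    obtain ⟨a0, a1, a2, a3, a4, a5⟩ := mem_filter.1 hc'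
    rw [mem_union, mem_union, mem_union]
    by_cases h8 : ∃ P : (Sh c.1 c.2).toAffine.Point, addOrderOf P = 8
    · right; left
      exact mem_filter.2 ⟨a0, a1, a2, a3, a4, h8⟩
    · by_cases h12 : ∃ P : (Sh c.1 c.2).toAffine.Point, addOrderOf P = 12
      · right; right; left
        exact mem_filter.2 ⟨a0, a1, a2, a3, a4, h12⟩
      · by_cases hT : HasT 4 (Sh c.1 c.2)
        · right; right; right
          unfold Cv
          exact mem_filter.2 ⟨a0, a1, a2, a3, a4, hT⟩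
        · left
          unfold G4
          refine mem_filter.2 ⟨hc, fun P hP => h8 ⟨P, hP⟩, fun P hP => h12 ⟨P, hP⟩, hT⟩
  refine (card_le_card hsub).trans ((card_union_le _ _).trans (Nat.add_le_add_left ?_ _))
  exact (card_union_le _ _).trans (Nat.add_le_add_left (card_union_le _ _) _)

lemma split8 (H : ℕ) : (CvN 8 H).card ≤ (G8 H).card + (Cv 8 H).card := by
  classical
  have hsub : CvN 8 H ⊆ G8 H ∪ Cv 8 H := by
    intro c hc
    have hc' := hc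
    unfold CvN at hc'
    obtain ⟨a0, a1, a2, a3, a4, a5⟩ := mem_filter.1 hc'
    rw [mem_union]
    by_cases hT : HasT 8 (Sh c.1 c.2)
    · right
      unfold Cv
      exact mem_filter.2 ⟨a0, a1, a2, a3, a4, hT⟩
    · left
      unfold G8
      exact mem_filter.2 ⟨hc, hT⟩
  exact (card_le_card hsub).trans (card_union_le _ _)

/-- the parameters of the curves with a point of order 8 -/
lemma par8 : ∃ (F : ℤ × ℤ → ℤ × ℤ) (C0 : ℕ), ∀ H, Set.InjOn F (CvN 8 H : Set (ℤ × ℤ)) ∧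
    ∀ c ∈ CvN 8 H, (F c).1.natAbs ^ 24 ≤ C0 * H ∧ (F c).2.natAbs ^ 24 ≤ C0 * H := by
  refine ⟨Pool.Agent.R421.Z8.F8p, 10 ^ 11, fun H => ⟨?_, ?_⟩⟩
  · intro c hc c' hc' hcc
    rw [Finset.mem_coe] at hc hc'
    simp only [CvN, Finset.mem_filter] at hc hc'
    obtain ⟨-, hD, -, -, hmin, hT⟩ := hc
    obtain ⟨-, hD', -, -, hmin', hT'⟩ := hc'
    have r := Pool.Agent.R421.Z8.F8p_rel (Pool.Agent.R421.Z8.core8 hD hT)
    have r' := Pool.Agent.R421.Z8.F8p_rel (Pool.Agent.R421.Z8.core8 hD' hT')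
    change Pool.Agent.R421.Z8.Rel8 c (Pool.Agent.R421.Z8.F8p c) at r
    change Pool.Agent.R421.Z8.Rel8 c' (Pool.Agent.R421.Z8.F8p c') at r'
    rw [← hcc] at r'
    exact Pool.Agent.R421.Z8.rel8_unique r r' hmin hmin'
  · intro c hc
    simp only [CvN, Finset.mem_filter] at hc
    obtain ⟨-, hD, hH, hH', hmin, hT⟩ := hc
    have r := Pool.Agent.R421.Z8.F8p_rel (Pool.Agent.R421.Z8.core8 hD hT)
    change Pool.Agent.R421.Z8.Rel8 c (Pool.Agent.R421.Z8.F8p c) at r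
    exact Pool.Agent.R421.Z8.rel8_bound (A := c.1) (B := c.2) r hH hH'

/-- the parameters of the curves with a point of order 12 -/
lemma par12 : ∃ (F : ℤ × ℤ → ℤ × ℤ) (C0 : ℕ), ∀ H, Set.InjOn F (CvN 12 H : Set (ℤ × ℤ)) ∧
    ∀ c ∈ CvN 12 H, (F c).1.natAbs ^ 48 ≤ C0 * H ∧ (F c).2.natAbs ^ 48 ≤ C0 * H := by
  refine ⟨Pool.Agent.R421.Z12.F12p, 10 ^ 26, fun H => ⟨?_, ?_⟩⟩
  · intro c hc c' hc' hcc
    rw [Finset.mem_coe] at hc hc'
    simp only [CvN, Finset.mem_filter] at hc hc'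
    obtain ⟨-, hD, -, -, hmin, hT⟩ := hc
    obtain ⟨-, hD', -, -, hmin', hT'⟩ := hc'
    have r := Pool.Agent.R421.Z12.F12p_rel (Pool.Agent.R421.Z12.core12 hD hT)
    have r' := Pool.Agent.R421.Z12.F12p_rel (Pool.Agent.R421.Z12.core12 hD' hT')
    change Pool.Agent.R421.Z12.Rel12 c (Pool.Agent.R421.Z12.F12p c) at r
    change Pool.Agent.R421.Z12.Rel12 c' (Pool.Agent.R421.Z12.F12p c') at r'
    rw [← hcc] at r'
    exact Pool.Agent.R421.Z12.rel12_unique r r' hmin hmin'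
  · intro c hc
    simp only [CvN, Finset.mem_filter] at hc
    obtain ⟨-, hD, hH, hH', hmin, hT⟩ := hc
    have r := Pool.Agent.R421.Z12.F12p_rel (Pool.Agent.R421.Z12.core12 hD hT)
    change Pool.Agent.R421.Z12.Rel12 c (Pool.Agent.R421.Z12.F12p c) at r
    exact Pool.Agent.R421.Z12.rel12_bound (A := c.1) (B := c.2) r hH hH'

/-- the ratio from the splitting -/
lemma ratio1 {A G B : ℕ → ℕ} (h1 : ∀ H, A H ≤ G H + B H) (h2 : ∀ H, G H ≤ A H)
    (h3 : Tendsto (fun H => (B H : ℝ) / (A H : ℝ)) atTop (𝓝 0)) (h4 : Tendsto A atTop atTop) :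
    Tendsto (fun H => (G H : ℝ) / (A H : ℝ)) atTop (𝓝 1) := by
  have h5 : Tendsto (fun H => 1 - (B H : ℝ) / (A H : ℝ)) atTop (𝓝 1) := by
    have := (tendsto_const_nhds (x := (1 : ℝ))).sub h3
    rwa [sub_zero] at this
  refine tendsto_of_tendsto_of_tendsto_of_le_of_le' h5 tendsto_const_nhds ?_ ?_
  · filter_upwards [h4.eventually_ge_atTop 1] with H hH
    have hA : (0 : ℝ) < A H := by exact_mod_cast hH
    rw [sub_le_iff_le_add, ← add_div, le_div_iff₀ hA, one_mul]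
    exact_mod_cast h1 H
  · filter_upwards [h4.eventually_ge_atTop 1] with H hH
    have hA : (0 : ℝ) < A H := by exact_mod_cast hH
    rw [div_le_one hA]
    exact_mod_cast h2 H

lemma tend4 : Tendsto (fun H => (CvN 4 H).card) atTop atTop :=
  Pool.Agent.R421.HF.tendsto_of_low' (by norm_num) Pool.Agent.R421.Z4.low4

lemma tend8 : Tendsto (fun H => (CvN 8 H).card) atTop atTop :=
  Pool.Agent.R421.HF.tendsto_of_low' (by norm_num) Pool.Agent.R421.Z8.low8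

/-- **almost all curves with a point of order 4 have torsion group `Z/4`** -/
theorem r4 : Tendsto (fun H => ((G4 H).card : ℝ) / ((CvN 4 H).card : ℝ)) atTop (𝓝 1) := by
  classical
  obtain ⟨c, C, T0, hc, hlow⟩ := Pool.Agent.R421.Z4.low4
  obtain ⟨F8, C8, h8⟩ := par8
  obtain ⟨F12, C12, h12⟩ := par12
  obtain ⟨C4, F4, h4⟩ := Pool.Agent.W605.RT.par4_of Pool.Agent.W261.RT.iso
  refine ratio1 (B := fun H => (CvN 8 H).card + ((CvN 12 H).card + (Cv 4 H).card)) split4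
    (fun H => card_filter_le _ _) ?_ tend4
  obtain ⟨M, hM⟩ : ∃ M, M = 18 * (C8 * (C + 1) + 1) + (18 * (C12 * (C + 1) + 1) +
    36 * (C4 * (C + 1) + 1) ^ 2) := ⟨_, rfl⟩
  refine ratio0 (k := 12) (e := 2) (M := M) (by norm_num) hc (fun K H hK hH => hlow K H hK hH)
    (fun K H hK hH => ?_)
  have a1 := bdA (h8 H).1 (k := 12) (k' := 24) (C := C) (by norm_num) (by norm_num) (h8 H).2 hK hH
  have a2 := bdA (h12 H).1 (k := 12) (k' := 48) (C := C) (by norm_num) (by norm_num) (h12 H).2 hK hH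
  have a3 := bdB (h4 H).1 (k := 12) (C := C) (by norm_num) (fun c hc => by
    obtain ⟨-, -, -, -, b1, b2, -⟩ := (h4 H).2 c hc
    exact ⟨b1, b2⟩) hK hH
  have hKK : K ≤ K ^ 2 := Nat.le_self_pow (by norm_num) K
  calc (CvN 8 H).card + ((CvN 12 H).card + (Cv 4 H).card)
      ≤ 18 * (C8 * (C + 1) + 1) * K + (18 * (C12 * (C + 1) + 1) * K +
        36 * (C4 * (C + 1) + 1) ^ 2 * K ^ 2) := Nat.add_le_add a1 (Nat.add_le_add a2 a3)
    _ ≤ 18 * (C8 * (C + 1) + 1) * K ^ 2 + (18 * (C12 * (C + 1) + 1) * K ^ 2 +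
        36 * (C4 * (C + 1) + 1) ^ 2 * K ^ 2) :=
      Nat.add_le_add (Nat.mul_le_mul_left _ hKK) (Nat.add_le_add_right (Nat.mul_le_mul_left _ hKK) _)
    _ = M * K ^ 2 := by rw [hM]; ring

/-- **almost all curves with a point of order 8 have torsion group `Z/8`** -/
theorem r8 : Tendsto (fun H => ((G8 H).card : ℝ) / ((CvN 8 H).card : ℝ)) atTop (𝓝 1) := by
  classical
  obtain ⟨c, C, T0, hc, hlow⟩ := Pool.Agent.R421.Z8.low8
  obtain ⟨C8, F8, h8⟩ := Pool.Agent.Y87.Z8.par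
  refine ratio1 (B := fun H => (Cv 8 H).card) split8 (fun H => card_filter_le _ _) ?_ tend8
  refine ratio0 (k := 24) (e := 1) (M := 18 * (C8 * (C + 1) + 1)) (by norm_num) hc
    (fun K H hK hH => hlow K H hK hH) (fun K H hK hH => ?_)
  have a1 := bdA (h8 H).1 (k := 24) (k' := 48) (C := C) (by norm_num) (by norm_num) (fun c hc => by
    obtain ⟨-, -, -, -, b1, b2, -⟩ := (h8 H).2 c hc
    exact ⟨b1, b2⟩) hK hH
  rw [pow_one]
  exact a1

/-- averages over the exact families -/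
lemma avg_ex {A G : ℕ → Finset (ℤ × ℤ)} {w : ℤ × ℤ → ℝ} (hw : ∀ c, 0 ≤ w c)
    (hsub : ∀ H, G H ⊆ A H) (hbd : ∀ H, (A H).card ≤ (2 * H + 1) ^ 2) {C : ℝ}
    (hA : ∀ H, ∑ c ∈ A H, w c ≤ C * (A H).card)
    (hr : Tendsto (fun H => ((G H).card : ℝ) / ((A H).card : ℝ)) atTop (𝓝 1)) :
    ∃ C' : ℝ, ∀ H, ∑ c ∈ G H, w c ≤ C' * (G H).card := by
  obtain ⟨C1, hC1⟩ : ∃ C1, C1 = max C 0 := ⟨_, rfl⟩
  have hC0 : 0 ≤ C1 := by rw [hC1]; exact le_max_right _ _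
  have hCC : C ≤ C1 := by rw [hC1]; exact le_max_left _ _
  rw [Metric.tendsto_atTop] at hr
  obtain ⟨H0, hH0⟩ := hr (1 / 2) (by norm_num)
  refine ⟨C1 * (2 + ((2 * H0 + 1) ^ 2 : ℕ)), fun H => ?_⟩
  have h1 : ∑ c ∈ G H, w c ≤ C1 * (A H).card := by
    refine (sum_le_sum_of_subset_of_nonneg (hsub H) fun c _ _ => hw c).trans ((hA H).trans ?_)
    exact mul_le_mul_of_nonneg_right hCC (Nat.cast_nonneg _)
  rcases (G H).eq_empty_or_nonempty with he | hne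
  · rw [he]
    simp
  have hG1 : (1 : ℝ) ≤ (G H).card := by exact_mod_cast hne.card_pos
  rcases Nat.lt_or_ge H H0 with hlt | hge
  · have h2 : (A H).card ≤ (2 * H0 + 1) ^ 2 :=
      (hbd H).trans (Nat.pow_le_pow_left (by omega) 2)
    have h3 : ((A H).card : ℝ) ≤ ((2 * H0 + 1) ^ 2 : ℕ) := by exact_mod_cast h2
    calc _ ≤ C1 * (A H).card := h1
      _ ≤ C1 * ((2 * H0 + 1) ^ 2 : ℕ) := mul_le_mul_of_nonneg_left h3 hC0
      _ ≤ C1 * (2 + ((2 * H0 + 1) ^ 2 : ℕ)) := mul_le_mul_of_nonneg_left (by linarith) hC0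
      _ ≤ _ := le_mul_of_one_le_right (by positivity) hG1
  · have h2 := hH0 H hge
    rw [Real.dist_eq] at h2
    have h3 := (abs_lt.1 h2).1
    have hA0 : (0 : ℝ) < (A H).card := by
      have : 0 < (A H).card := lt_of_lt_of_le hne.card_pos (card_le_card (hsub H))
      exact_mod_cast this
    have h4 : (1 / 2 : ℝ) < ((G H).card : ℝ) / (A H).card := by linarith
    rw [lt_div_iff₀ hA0] at h4
    have h5 : ((A H).card : ℝ) ≤ 2 * (G H).card := by linarith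
    calc _ ≤ C1 * (A H).card := h1
      _ ≤ C1 * (2 * (G H).card) := mul_le_mul_of_nonneg_left h5 hC0
      _ ≤ C1 * (2 + ((2 * H0 + 1) ^ 2 : ℕ)) * (G H).card := by
        rw [← mul_assoc]
        refine mul_le_mul_of_nonneg_right (mul_le_mul_of_nonneg_left ?_ hC0) (Nat.cast_nonneg _)
        have : (0 : ℝ) ≤ ((2 * H0 + 1) ^ 2 : ℕ) := Nat.cast_nonneg _
        linarith

lemma cvN_card (N H : ℕ) : (CvN N H).card ≤ (2 * H + 1) ^ 2 := by
  classical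
  unfold CvN
  refine (card_filter_le _ _).trans (le_of_eq ?_)
  rw [card_product, Int.card_Icc]
  have : ((H : ℤ) + 1 - -(H : ℤ)).toNat = 2 * H + 1 := by omega
  rw [this]
  ring

lemma tend_of_ratio {A G : ℕ → ℕ} (hA : Tendsto A atTop atTop)
    (hr : Tendsto (fun H => (G H : ℝ) / (A H : ℝ)) atTop (𝓝 1)) : Tendsto G atTop atTop := by
  rw [tendsto_atTop]
  intro b
  filter_upwards [hA.eventually_ge_atTop (2 * b + 1), hr.eventually (lt_mem_nhds
    (show (1 / 2 : ℝ) < 1 by norm_num))] with H h1 h2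
  have hA0 : (0 : ℝ) < A H := by
    have : 0 < A H := by omega
    exact_mod_cast this
  rw [lt_div_iff₀ hA0] at h2
  have h3 : ((2 * b + 1 : ℕ) : ℝ) ≤ A H := by exact_mod_cast h1
  have h4 : (b : ℝ) ≤ G H := by
    push_cast at h3
    linarith
  exact_mod_cast h4

end Pool.Agent.R421.ET
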